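import Pool.Agent.Helper99.WG.Pack

/-!
# MP_abf47a_co: balanced colourings
-/

namespace Pool.Agent.Helper99.WG

open Finset

set_option linter.unusedSectionVars false

/-- In a connected component of a bipartite graph of maximal degree at most two one colour has at
most one vertex more than the other. -/
theorem comp_le {W : Type*} [Fintype W] (H : SimpleGraph W) (hD : ∀ w, (H.neighborSet w).ncard ≤ 2)
    (c : W → Bool) (hc : ∀ u v, H.Adj u v → c u ≠ c v) (K : H.ConnectedComponent) :
    Set.ncard {w | w ∈ K ∧ c w = true} ≤ Set.ncard {w | w ∈ K ∧ c w = false} + 1 := by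
  classical
  have hF : Fintype K := Fintype.ofFinite K
  have hconn := K.connected_toSimpleGraph
  have h1 := hconn.card_vert_le_card_edgeSet_add_one
  set T : Finset K := univ.filter fun w : K => c w = true with hT
  set F : Finset K := univ.filter fun w : K => c w = false with hFd
  have hb : K.toSimpleGraph.IsBipartiteWith (F : Set K) (T : Set K) := by
    constructor
    · rw [Finset.disjoint_coe, Finset.disjoint_left]
      intro w hw hw'
      rw [hFd, Finset.mem_filter] at hw
      rw [hT, Finset.mem_filter] at hw'
      rw [hw.2] at hw'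
      exact absurd hw'.2 (by simp)
    · intro v w hvw
      have hvw' : H.Adj v w := hvw
      have h2 := hc _ _ hvw'
      rcases Bool.eq_false_or_eq_true (c v) with h3 | h3 <;>
        rcases Bool.eq_false_or_eq_true (c w) with h4 | h4
      · exact absurd (h3.trans h4.symm) h2
      · right
        simp [hT, hFd, h3, h4]
      · left
        simp [hT, hFd, h3, h4]
      · exact absurd (h3.trans h4.symm) h2
  have h2 := SimpleGraph.isBipartiteWith_sum_degrees_eq_card_edges hb
  have h3 : ∀ w ∈ F, K.toSimpleGraph.degree w ≤ 2 := by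
    intro w _
    refine le_trans ?_ (hD w)
    rw [← SimpleGraph.card_neighborSet_eq_degree, ← Nat.card_eq_fintype_card,
      Nat.card_coe_set_eq, ← Set.ncard_image_of_injective _ Subtype.val_injective]
    apply Set.ncard_le_ncard _ (Set.toFinite _)
    rintro _ ⟨v, hv, rfl⟩
    exact hv
  have h4 : K.toSimpleGraph.edgeFinset.card ≤ F.card * 2 := by
    rw [← h2]
    exact Finset.sum_le_card_nsmul F _ 2 h3
  have h5 : Nat.card K.toSimpleGraph.edgeSet = K.toSimpleGraph.edgeFinset.card := by
    rw [Nat.card_eq_fintype_card, SimpleGraph.edgeFinset_card]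
  have h6 : Nat.card K = T.card + F.card := by
    rw [Nat.card_eq_fintype_card, ← Finset.card_univ, hT, hFd]
    rw [← Finset.card_filter_add_card_filter_not (s := univ) (fun w : K => c w = true)]
    simp
  have h7 : Set.ncard {w | w ∈ K ∧ c w = true} = T.card := by
    rw [← Set.ncard_coe_finset, ← Set.ncard_image_of_injective _ Subtype.val_injective]
    congr 1
    ext w
    simp [hT, and_comm]
  have h8 : Set.ncard {w | w ∈ K ∧ c w = false} = F.card := by
    rw [← Set.ncard_coe_finset, ← Set.ncard_image_of_injective _ Subtype.val_injective]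
    congr 1
    ext w
    simp [hFd, and_comm]
  omega

/-- A bipartite graph of maximal degree at most two on `2 s` vertices has a colouring with
colour classes of size `s`. -/
theorem exists_balanced {W : Type*} [Fintype W] {s : ℕ} (H : SimpleGraph W)
    (hW : Fintype.card W = 2 * s) (hH : H.IsBipartite)
    (hD : ∀ w, (H.neighborSet w).ncard ≤ 2) :
    ∃ c : W → Bool, (∀ u v, H.Adj u v → c u ≠ c v) ∧ Set.ncard {w | c w = true} = s ∧
      Set.ncard {w | c w = false} = s := by
  classical
  have hsum : ∀ c : W → Bool, Set.ncard {w | c w = true} + Set.ncard {w | c w = false} = 2 * s := by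
    intro c
    have h1 := Set.ncard_add_ncard_compl {w | c w = true}
    have h2 : {w | c w = true}ᶜ = {w | c w = false} := by
      ext w
      simp
    rw [h2, Nat.card_eq_fintype_card, hW] at h1
    exact h1
  -- a colouring with at least `s` vertices of the colour `true`
  have hex : ∃ k, s ≤ k ∧ ∃ c : W → Bool, (∀ u v, H.Adj u v → c u ≠ c v) ∧
      Set.ncard {w | c w = true} = k := by
    obtain ⟨C⟩ := hH
    have h1 : ∀ u v, H.Adj u v → (decide (C u = 0)) ≠ (decide (C v = 0)) := by
      intro u v huv
      have h2 := C.valid huv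
      by_cases h3 : C u = 0
      · have h4 : C v ≠ 0 := fun h => h2 (h3.trans h.symm)
        simp [h3, h4]
      · have h4 : C v = 0 := by omega
        simp [h3, h4]
    by_cases h2 : s ≤ Set.ncard {w | (decide (C w = 0)) = true}
    · exact ⟨_, h2, _, h1, rfl⟩
    · refine ⟨_, ?_, fun w => !(decide (C w = 0)), ?_, rfl⟩
      · have h3 := hsum (fun w => decide (C w = 0))
        have h4 : {w | (!decide (C w = 0)) = true} = {w | (decide (C w = 0)) = false} := by
          ext w
          simp
        rw [h4]
        omega
      · intro u v huv h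
        exact h1 u v huv (by simpa using h)
  have hmin := Nat.find_spec hex
  obtain ⟨hk, c, hc, hck⟩ := hmin
  set k := Nat.find hex with hkdef
  by_cases hks : k = s
  · refine ⟨c, hc, hck.trans hks, ?_⟩
    have := hsum c
    omega
  exfalso
  have hlt : s < k := lt_of_le_of_ne hk (Ne.symm hks)
  have hTF : Set.ncard {w | c w = false} < Set.ncard {w | c w = true} := by
    have := hsum c
    omega
  -- a component with more vertices of colour `true`
  have hK : ∃ K : H.ConnectedComponent,
      Set.ncard {w | w ∈ K ∧ c w = false} < Set.ncard {w | w ∈ K ∧ c w = true} := by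
    by_contra hcon
    push Not at hcon
    have hfib : ∀ b : Bool, Set.ncard {w | c w = b} =
        ∑ K : H.ConnectedComponent, Set.ncard {w | w ∈ K ∧ c w = b} := by
      intro b
      have h1 : Set.ncard {w | c w = b} = (univ.filter fun w => c w = b).card := by
        rw [← Set.ncard_coe_finset]
        congr 1
        ext w
        simp
      rw [h1, Finset.card_eq_sum_card_fiberwise (f := H.connectedComponentMk) (t := univ)
        (fun w _ => by simp)]
      refine Finset.sum_congr rfl fun K _ => ?_
      rw [← Set.ncard_coe_finset]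
      congr 1
      ext w
      simp only [Finset.coe_filter, Finset.mem_filter, Finset.mem_univ, true_and,
        Set.mem_ofPred_eq]
      constructor
      · rintro ⟨h2, h3⟩
        exact ⟨h3, h2⟩
      · rintro ⟨h2, h3⟩
        exact ⟨h3, h2⟩
    rw [hfib, hfib] at hTF
    have h9 : ∑ K : H.ConnectedComponent, Set.ncard {w | w ∈ K ∧ c w = true} ≤
        ∑ K : H.ConnectedComponent, Set.ncard {w | w ∈ K ∧ c w = false} :=
      Finset.sum_le_sum fun K _ => hcon K
    omega
  obtain ⟨K, hK⟩ := hK
  have hK1 := comp_le H hD c hc K
  -- flip the colours in `K`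
  let c' : W → Bool := fun w => if w ∈ K then !(c w) else c w
  have hc' : ∀ u v, H.Adj u v → c' u ≠ c' v := by
    intro u v huv
    have h1 : u ∈ K ↔ v ∈ K := K.mem_supp_congr_adj huv
    have h2 := hc u v huv
    simp only [c']
    by_cases h3 : u ∈ K
    · rw [if_pos h3, if_pos (h1.mp h3)]
      intro h
      exact h2 (by simpa using h)
    · rw [if_neg h3, if_neg (fun h => h3 (h1.mpr h))]
      exact h2
  have hsplit : ∀ (d : W → Bool), Set.ncard {w | d w = true} =
      Set.ncard {w | w ∈ K ∧ d w = true} + Set.ncard {w | w ∉ K ∧ d w = true} := by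
    intro d
    rw [← Set.ncard_union_eq]
    · congr 1
      ext w
      simp only [Set.mem_ofPred_eq, Set.mem_union]
      tauto
    · rw [Set.disjoint_left]
      rintro w ⟨h1, _⟩ ⟨h2, _⟩
      exact h2 h1
  have e1 : {w | w ∈ K ∧ c' w = true} = {w | w ∈ K ∧ c w = false} := by
    ext w
    simp only [Set.mem_ofPred_eq, c']
    constructor
    · rintro ⟨h1, h2⟩
      rw [if_pos h1] at h2
      exact ⟨h1, by simpa using h2⟩
    · rintro ⟨h1, h2⟩
      rw [if_pos h1]
      exact ⟨h1, by simpa using h2⟩
  have e2 : {w | w ∉ K ∧ c' w = true} = {w | w ∉ K ∧ c w = true} := by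
    ext w
    simp only [Set.mem_ofPred_eq, c']
    constructor
    · rintro ⟨h1, h2⟩
      rw [if_neg h1] at h2
      exact ⟨h1, h2⟩
    · rintro ⟨h1, h2⟩
      rw [if_neg h1]
      exact ⟨h1, h2⟩
  have h5 := hsplit c
  have h6 := hsplit c'
  rw [e1, e2] at h6
  have h7 : s ≤ Set.ncard {w | c' w = true} := by omega
  have h8 : Set.ncard {w | c' w = true} < k := by omega
  exact Nat.find_min hex h8 ⟨h7, c', hc', rfl⟩

end Pool.Agent.Helper99.WG
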