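import Mathlib

/-!
# MP_abf47a_co: the counting part

`X` is a set of pairs `x b, y b` of elements of `α` (a multigraph of maximal degree two), every
`a : α` has a set `N a` of at most `m` elements, every `d` lies in at most `m` of these sets, all
elements of `Z` are in `N (x b) ∪ N (y b)` for all `b ∈ X`, and no exchange of two sets `N u`,
`N v` increases the sum of the numbers `|N (x b) ∩ N (y b)|`.  Then
`|X| (5 |Z| - 4 m) ≤ 4 m (|Z| + 1)`.
-/

namespace Pool.Agent.Helper99.WG

open Finset

set_option linter.unusedSectionVars false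

variable {α β δ : Type*} [Fintype α] [DecidableEq α] [DecidableEq β] [Fintype δ]
  [DecidableEq δ]

/-- The indicator function of `N a`. -/
def chi (N : α → Finset δ) (a : α) (d : δ) : ℝ := if d ∈ N a then 1 else 0

/-- The number of common elements of `N a` and `N a'`. -/
def com (N : α → Finset δ) (a a' : α) : ℝ := ∑ d, chi N a d * chi N a' d

/-- The indicator function of `a = u`. -/
def ind (a u : α) : ℝ := if a = u then 1 else 0

theorem chi_zero_or (N : α → Finset δ) (a : α) (d : δ) : chi N a d = 0 ∨ chi N a d = 1 := by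
  unfold chi
  split_ifs <;> simp

theorem chi_nonneg (N : α → Finset δ) (a : α) (d : δ) : 0 ≤ chi N a d := by
  rcases chi_zero_or N a d with h | h <;> rw [h] <;> norm_num

theorem chi_le_one (N : α → Finset δ) (a : α) (d : δ) : chi N a d ≤ 1 := by
  rcases chi_zero_or N a d with h | h <;> rw [h] <;> norm_num

theorem sum_chi (N : α → Finset δ) (a : α) : ∑ d, chi N a d = (N a).card := by
  unfold chi
  rw [Finset.sum_boole]
  simp

theorem com_comm (N : α → Finset δ) (a a' : α) : com N a a' = com N a' a := by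
  unfold com
  exact Finset.sum_congr rfl fun d _ => mul_comm _ _

theorem com_nonneg (N : α → Finset δ) (a a' : α) : 0 ≤ com N a a' :=
  Finset.sum_nonneg fun d _ => mul_nonneg (chi_nonneg N a d) (chi_nonneg N a' d)

theorem com_self (N : α → Finset δ) (a : α) : com N a a = (N a).card := by
  rw [← sum_chi]
  unfold com
  refine Finset.sum_congr rfl fun d _ => ?_
  rcases chi_zero_or N a d with h | h <;> rw [h] <;> norm_num

/-- The data of the counting argument. -/
structure Data (N : α → Finset δ) (m : ℝ) (X : Finset β) (Z : Finset δ) (x y : β → α)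
    (U : Finset α) : Prop where
  one : ∀ a, ((N a).card : ℝ) ≤ m
  two : ∀ d, ∑ a, chi N a d ≤ m
  cov : ∀ b ∈ X, ∀ d ∈ Z, d ∈ N (x b) ∨ d ∈ N (y b)
  degU : ∀ u ∈ U, ∑ b ∈ X, (ind (x b) u + ind (y b) u) = 2
  degV : ∀ u ∉ U, ∑ b ∈ X, (ind (x b) u + ind (y b) u) ≤ 1
  swap : ∀ u ∈ U, ∀ v ∈ U, ∑ b ∈ X,
    ((ind (x b) u * (com N v (y b) - com N (x b) (y b)) +
      ind (y b) u * (com N v (x b) - com N (x b) (y b))) +
     (ind (x b) v * (com N u (y b) - com N (x b) (y b)) +
      ind (y b) v * (com N u (x b) - com N (x b) (y b)))) ≤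
    ∑ b ∈ X, 2 * m * (ind (x b) u * ind (y b) v + ind (x b) v * ind (y b) u)

section

variable {N : α → Finset δ} {m : ℝ} {X : Finset β} {Z : Finset δ} {x y : β → α} {U : Finset α}

/-- The indicator function of `U`. -/
def inU (U : Finset α) (a : α) : ℝ := if a ∈ U then 1 else 0

theorem inU_zero_or (U : Finset α) (a : α) : inU U a = 0 ∨ inU U a = 1 := by
  unfold inU
  split_ifs <;> simp

theorem sum_ind (U : Finset α) (a : α) (g : α → ℝ) :
    ∑ u ∈ U, ind a u * g u = inU U a * g a := by
  unfold ind inU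
  by_cases h : a ∈ U
  · rw [Finset.sum_eq_single a]
    · simp [h]
    · intro b _ hb
      rw [if_neg (Ne.symm hb), zero_mul]
    · intro h'
      exact absurd h h'
  · rw [if_neg h, zero_mul]
    apply Finset.sum_eq_zero
    intro u hu
    rw [if_neg, zero_mul]
    rintro rfl
    exact h hu

theorem sum_ind' (U : Finset α) (a : α) : ∑ u ∈ U, ind a u = inU U a := by
  have := sum_ind U a (fun _ => 1)
  simpa using this

/-- Sums over the pairs of `X` with the weights `1` for the elements of `U`. -/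
theorem sum_U (hd : Data N m X Z x y U) (g : α → ℝ) :
    ∑ b ∈ X, (inU U (x b) * g (x b) + inU U (y b) * g (y b)) = 2 * ∑ u ∈ U, g u := by
  have h1 : ∀ b ∈ X, inU U (x b) * g (x b) + inU U (y b) * g (y b) =
      ∑ u ∈ U, (ind (x b) u + ind (y b) u) * g u := by
    intro b _
    rw [← sum_ind, ← sum_ind, ← Finset.sum_add_distrib]
    exact Finset.sum_congr rfl fun u _ => by ring
  rw [Finset.sum_congr rfl h1, Finset.sum_comm, Finset.mul_sum]
  refine Finset.sum_congr rfl fun u hu => ?_
  rw [← Finset.sum_mul, hd.degU u hu]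

/-- Sums over the pairs of `X` with the weights `1` for the elements outside `U`. -/
theorem sum_V (hd : Data N m X Z x y U) (g : α → ℝ) (hg : ∀ a, 0 ≤ g a) :
    ∑ b ∈ X, ((1 - inU U (x b)) * g (x b) + (1 - inU U (y b)) * g (y b)) ≤
      ∑ u ∈ univ \ U, g u := by
  have h0 : ∀ a, 1 - inU U a = inU (univ \ U) a := by
    intro a
    unfold inU
    by_cases h : a ∈ U <;> simp [h]
  have h1 : ∀ b ∈ X, (1 - inU U (x b)) * g (x b) + (1 - inU U (y b)) * g (y b) =
      ∑ u ∈ univ \ U, (ind (x b) u + ind (y b) u) * g u := by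
    intro b _
    rw [h0, h0, ← sum_ind, ← sum_ind, ← Finset.sum_add_distrib]
    exact Finset.sum_congr rfl fun u _ => by ring
  rw [Finset.sum_congr rfl h1, Finset.sum_comm]
  refine Finset.sum_le_sum fun u hu => ?_
  rw [← Finset.sum_mul]
  have h2 := hd.degV u (by simpa using hu)
  calc _ ≤ 1 * g u := mul_le_mul_of_nonneg_right h2 (hg u)
    _ = g u := one_mul _

/-- `|X| + |V-part| ≤ 2 m` for every element of `Z`. -/
theorem cost (hd : Data N m X Z x y U) {d : δ} (hdZ : d ∈ Z) :
    (X.card : ℝ) + ∑ b ∈ X, ((1 - inU U (x b)) * chi N (x b) d +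
      (1 - inU U (y b)) * chi N (y b) d) ≤ 2 * m := by
  have h1 := sum_U hd (fun a => chi N a d)
  have h2 := sum_V hd (fun a => chi N a d) (fun a => chi_nonneg N a d)
  have h3 : ∑ u ∈ U, chi N u d + ∑ u ∈ univ \ U, chi N u d = ∑ u, chi N u d := by
    rw [add_comm]
    exact Finset.sum_sdiff (Finset.subset_univ U)
  have h4 := hd.two d
  have h5 : (X.card : ℝ) ≤ ∑ b ∈ X, (inU U (x b) * chi N (x b) d + inU U (y b) * chi N (y b) d) +
      ∑ b ∈ X, ((1 - inU U (x b)) * chi N (x b) d + (1 - inU U (y b)) * chi N (y b) d) := by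
    rw [← Finset.sum_add_distrib]
    have : (X.card : ℝ) = ∑ b ∈ X, (1 : ℝ) := by simp
    rw [this]
    refine Finset.sum_le_sum fun b hb => ?_
    have hc := hd.cov b hb d hdZ
    have hx := chi_nonneg N (x b) d
    have hy := chi_nonneg N (y b) d
    have h6 : 1 ≤ chi N (x b) d + chi N (y b) d := by
      rcases hc with h | h
      · have : chi N (x b) d = 1 := by simp [chi, h]
        linarith
      · have : chi N (y b) d = 1 := by simp [chi, h]
        linarith
    linarith
  linarith

/-- The number of pairs with exactly one end in `U`. -/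
def ie (X : Finset β) (x y : β → α) (U : Finset α) : ℝ :=
  ∑ b ∈ X, (inU U (x b) + inU U (y b) - 2 * inU U (x b) * inU U (y b))

/-- The number of pairs with no end in `U`. -/
def ee (X : Finset β) (x y : β → α) (U : Finset α) : ℝ :=
  ∑ b ∈ X, (1 - inU U (x b)) * (1 - inU U (y b))

theorem ie_nonneg : 0 ≤ ie X x y U := by
  refine Finset.sum_nonneg fun b _ => ?_
  rcases inU_zero_or U (x b) with h | h <;> rcases inU_zero_or U (y b) with h' | h' <;>
    rw [h, h'] <;> norm_num

theorem ee_nonneg : 0 ≤ ee X x y U := by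
  refine Finset.sum_nonneg fun b _ => ?_
  rcases inU_zero_or U (x b) with h | h <;> rcases inU_zero_or U (y b) with h' | h' <;>
    rw [h, h'] <;> norm_num

theorem sum_pq (hd : Data N m X Z x y U) :
    ∑ b ∈ X, (inU U (x b) + inU U (y b)) = 2 * U.card := by
  have h1 := sum_U hd (fun _ => 1)
  simpa using h1

theorem sum_both (hd : Data N m X Z x y U) :
    2 * ∑ b ∈ X, inU U (x b) * inU U (y b) = 2 * U.card - ie X x y U := by
  rw [← sum_pq hd, ie, Finset.mul_sum, ← Finset.sum_sub_distrib]
  exact Finset.sum_congr rfl fun b _ => by ring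

theorem ie_le (hd : Data N m X Z x y U) : ie X x y U ≤ 2 * U.card := by
  have h1 := sum_both hd
  have h2 : 0 ≤ ∑ b ∈ X, inU U (x b) * inU U (y b) := by
    refine Finset.sum_nonneg fun b _ => ?_
    rcases inU_zero_or U (x b) with h | h <;> rcases inU_zero_or U (y b) with h' | h' <;>
      rw [h, h'] <;> norm_num
  linarith

/-- E2 -/
theorem count (hd : Data N m X Z x y U) :
    2 * (X.card : ℝ) = 2 * U.card + ie X x y U + 2 * ee X x y U := by
  have : (X.card : ℝ) = ∑ b ∈ X, (1 : ℝ) := by simp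
  rw [this, ← sum_pq hd, ie, ee, Finset.mul_sum, Finset.mul_sum, ← Finset.sum_add_distrib,
    ← Finset.sum_add_distrib]
  exact Finset.sum_congr rfl fun b _ => by ring

/-- The number of elements of `Z` in `N a`. -/
def inZ (N : α → Finset δ) (Z : Finset δ) (a : α) : ℝ := ∑ d ∈ Z, chi N a d

theorem inZ_le (hd : Data N m X Z x y U) (a : α) : inZ N Z a ≤ m := by
  refine le_trans ?_ (hd.one a)
  rw [← sum_chi]
  exact Finset.sum_le_sum_of_subset_of_nonneg (Finset.subset_univ Z)
    fun d _ _ => chi_nonneg N a d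

theorem cov_sum (hd : Data N m X Z x y U) {b : β} (hb : b ∈ X) {d : δ} (hdZ : d ∈ Z) :
    (1 - chi N (x b) d) * (1 - chi N (y b) d) = 0 := by
  rcases hd.cov b hb d hdZ with h | h
  · have : chi N (x b) d = 1 := by simp [chi, h]
    rw [this]; ring
  · have : chi N (y b) d = 1 := by simp [chi, h]
    rw [this]; ring

theorem cov_le (hd : Data N m X Z x y U) {b : β} (hb : b ∈ X) :
    (Z.card : ℝ) ≤ inZ N Z (x b) + inZ N Z (y b) := by
  have : (Z.card : ℝ) = ∑ d ∈ Z, (1 : ℝ) := by simp
  rw [this, inZ, inZ, ← Finset.sum_add_distrib]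
  refine Finset.sum_le_sum fun d hdZ => ?_
  have h1 := cov_sum hd hb hdZ
  have h2 := mul_nonneg (chi_nonneg N (x b) d) (chi_nonneg N (y b) d)
  nlinarith

/-- E3 -/
theorem cover_cost (hd : Data N m X Z x y U) :
    (X.card : ℝ) * Z.card + ie X x y U * (Z.card - m) + ee X x y U * Z.card ≤
      2 * m * Z.card := by
  have h1 : ∑ d ∈ Z, ((X.card : ℝ) + ∑ b ∈ X, ((1 - inU U (x b)) * chi N (x b) d +
      (1 - inU U (y b)) * chi N (y b) d)) ≤ ∑ d ∈ Z, 2 * m :=
    Finset.sum_le_sum fun d hdZ => cost hd hdZ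
  rw [Finset.sum_const, nsmul_eq_mul, Finset.sum_add_distrib, Finset.sum_const, nsmul_eq_mul,
    Finset.sum_comm] at h1
  have h2 : ie X x y U * (Z.card - m) + ee X x y U * Z.card ≤
      ∑ b ∈ X, ∑ d ∈ Z, ((1 - inU U (x b)) * chi N (x b) d +
      (1 - inU U (y b)) * chi N (y b) d) := by
    rw [ie, ee, Finset.sum_mul, Finset.sum_mul, ← Finset.sum_add_distrib]
    refine Finset.sum_le_sum fun b hb => ?_
    rw [Finset.sum_add_distrib, ← Finset.mul_sum, ← Finset.mul_sum]
    have h3 := cov_le hd hb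
    have h4 := inZ_le hd (x b)
    have h5 := inZ_le hd (y b)
    change _ ≤ (1 - inU U (x b)) * inZ N Z (x b) + (1 - inU U (y b)) * inZ N Z (y b)
    rcases inU_zero_or U (x b) with h | h <;> rcases inU_zero_or U (y b) with h' | h' <;>
      rw [h, h'] <;> linarith
  linarith

end

end Pool.Agent.Helper99.WG
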