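import Pool.Agent.Helper99.WG.Col

/-!
# MP_abf47a_co: the statement for graphs
-/

namespace Pool.Agent.Helper99.WG

open Finset

set_option linter.unusedSectionVars false

/-- The number of non-neighbours on the other side. -/
theorem nonadj_le {V : Type*} [Fintype V] (G : SimpleGraph V) {A B : Set V} {s : ℕ}
    (hAB : G.IsBipartiteWith A B) (hB : B.ncard = s)
    (hG : ∀ v, 7 * s ≤ 10 * (G.neighborSet v).ncard) (a : A) :
    Set.ncard {b : B | ¬ G.Adj (a : V) (b : V)} ≤ 3 * s / 10 := by
  have h1 : Set.ncard {b : B | G.Adj (a : V) (b : V)} = (G.neighborSet a).ncard := by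
    rw [← Set.ncard_image_of_injective _ Subtype.val_injective]
    congr 1
    ext v
    simp only [Set.mem_image, Set.mem_ofPred_eq, Subtype.exists, exists_and_left, exists_prop,
      exists_eq_right_right, SimpleGraph.mem_neighborSet]
    constructor
    · rintro ⟨h, _⟩
      exact h
    · intro h
      exact ⟨h, hAB.mem_of_mem_adj a.2 h⟩
  have h2 := Set.ncard_add_ncard_compl {b : B | G.Adj (a : V) (b : V)}
  have h3 : {b : B | G.Adj (a : V) (b : V)}ᶜ = {b : B | ¬ G.Adj (a : V) (b : V)} := rfl
  rw [h1, h3, Nat.card_coe_set_eq, hB] at h2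
  have h4 := hG a
  omega

theorem contained {V W : Type*} [Fintype V] [Fintype W] {s : ℕ} (G : SimpleGraph V)
    (A B : Set V) (hAB : G.IsBipartiteWith A B) (hA : A.ncard = s) (hB : B.ncard = s)
    (hG : ∀ v, 7 * s ≤ 10 * (G.neighborSet v).ncard) (H : SimpleGraph W)
    (hW : Fintype.card W = 2 * s) (hH : H.IsBipartite)
    (hD : ∀ w, (H.neighborSet w).ncard ≤ 2) : H.IsContained G := by
  classical
  obtain ⟨c, hc, hct, hcf⟩ := exists_balanced H hW hH hD
  have hα : Fintype.card {w // c w = true} = s := by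
    rw [← hct, ← Nat.card_coe_set_eq, Nat.card_eq_fintype_card]
    rfl
  have hβ : Fintype.card {w // c w = false} = s := by
    rw [← hcf, ← Nat.card_coe_set_eq, Nat.card_eq_fintype_card]
    rfl
  have hγ : Fintype.card A = s := by
    rw [← hA, ← Nat.card_coe_set_eq, Nat.card_eq_fintype_card]
  have hδ : Fintype.card B = s := by
    rw [← hB, ← Nat.card_coe_set_eq, Nat.card_eq_fintype_card]
  obtain ⟨f, g, hfg⟩ := packing (m := 3 * s / 10) hα hβ hγ hδ
    (fun a b => H.Adj (a : W) (b : W)) (fun a b => ¬ G.Adj (a : V) (b : V))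
    (fun a => by
      refine le_trans ?_ (hD a)
      rw [← Set.ncard_image_of_injective _ Subtype.val_injective]
      apply Set.ncard_le_ncard _ (Set.toFinite _)
      rintro _ ⟨v, hv, rfl⟩
      exact hv)
    (fun b => by
      refine le_trans ?_ (hD b)
      rw [← Set.ncard_image_of_injective _ Subtype.val_injective]
      apply Set.ncard_le_ncard _ (Set.toFinite _)
      rintro _ ⟨v, hv, rfl⟩
      exact SimpleGraph.Adj.symm hv)
    (fun a => nonadj_le G hAB hB hG a)
    (fun b => by
      have h1 := nonadj_le G hAB.symm hA hG b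
      have h2 : {c : A | ¬ G.Adj (c : V) (b : V)} = {c : A | ¬ G.Adj (b : V) (c : V)} := by
        ext c
        simp only [Set.mem_ofPred_eq, G.adj_comm]
      rw [h2]
      exact h1)
    (by omega)
  let φ : W → V := fun w => if h : c w = true then (f ⟨w, h⟩ : V) else
    (g ⟨w, by simpa using h⟩ : V)
  have ht : ∀ w (h : c w = true), φ w = (f ⟨w, h⟩ : V) := fun w h => dif_pos h
  have hf' : ∀ w (h : c w = false), φ w = (g ⟨w, h⟩ : V) := fun w h =>
    dif_neg (by rw [h]; simp)
  have hadj : ∀ u v, c u = true → c v = false → H.Adj u v → G.Adj (φ u) (φ v) := by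
    intro u v hu hv huv
    have h1 := hfg ⟨u, hu⟩ ⟨v, hv⟩ huv
    rw [not_not] at h1
    rw [ht u hu, hf' v hv]
    exact h1
  refine ⟨⟨⟨φ, ?_⟩, ?_⟩⟩
  · intro u v huv
    have h1 := hc u v huv
    rcases Bool.eq_false_or_eq_true (c u) with h2 | h2 <;>
      rcases Bool.eq_false_or_eq_true (c v) with h3 | h3
    · exact absurd (h2.trans h3.symm) h1
    · exact hadj u v h2 h3 huv
    · exact (hadj v u h3 h2 huv.symm).symm
    · exact absurd (h2.trans h3.symm) h1
  · intro u v huv
    change φ u = φ v at huv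
    have hdis := Set.disjoint_left.mp hAB.disjoint
    rcases Bool.eq_false_or_eq_true (c u) with h2 | h2 <;>
      rcases Bool.eq_false_or_eq_true (c v) with h3 | h3
    · rw [ht u h2, ht v h3] at huv
      have := f.injective (Subtype.ext huv)
      exact congrArg Subtype.val this
    · rw [ht u h2, hf' v h3] at huv
      exact absurd (huv ▸ (g ⟨v, h3⟩).2) (hdis (f ⟨u, h2⟩).2)
    · rw [hf' u h2, ht v h3] at huv
      exact absurd (huv ▸ (g ⟨u, h2⟩).2) (hdis (f ⟨v, h3⟩).2)
    · rw [hf' u h2, hf' v h3] at huv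
      have := g.injective (Subtype.ext huv)
      exact congrArg Subtype.val this

end Pool.Agent.Helper99.WG
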