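import Pool.Agent.Helper99.WG.Swap

/-!
# MP_abf47a_co: packing a bipartite graph of maximal degree two

If the bipartite graph `r` (the complement of the host) has maximal degree at most `m` and
`10 m ≤ 3 s`, then every bipartite graph `h` of maximal degree at most two can be packed
with it.
-/

namespace Pool.Agent.Helper99.WG

open Finset

set_option linter.unusedSectionVars false

theorem numeric {s m X Z : ℕ} (h1 : 10 * m ≤ 3 * s) (h2 : s + 1 ≤ X + Z) (hX : X ≤ 2 * m)
    (hX0 : 0 < X) (hZ : Z ≤ 2 * m) (hc : (X : ℝ) * (5 * Z - 4 * m) ≤ 4 * m * (Z + 1)) :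
    False := by
  have a1 : (10 * m : ℝ) ≤ 3 * s := by exact_mod_cast h1
  have a2 : (s + 1 : ℝ) ≤ X + Z := by exact_mod_cast h2
  have a3 : (X : ℝ) ≤ 2 * m := by exact_mod_cast hX
  have a4 : (Z : ℝ) ≤ 2 * m := by exact_mod_cast hZ
  have a0 : 0 < m := by omega
  have a5 : (0 : ℝ) < m := by exact_mod_cast a0
  have a6 : (0 : ℝ) < 5 * Z - 4 * m := by linarith
  have a7 : (10 * m / 3 + 1 - Z : ℝ) ≤ X := by linarith
  have a8 := mul_le_mul_of_nonneg_right a7 a6.le
  have a9 : 0 ≤ ((Z : ℝ) - 4 * m / 3 - 1) * (2 * m - Z) :=
    mul_nonneg (by linarith) (by linarith)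
  nlinarith

variable {α β γ δ : Type*} [Fintype α] [Fintype β] [Fintype γ] [Fintype δ]

/-- An exchange changes the number of common elements for one pair as follows. -/
theorem pair_ineq [DecidableEq α] [DecidableEq δ] (N : α → Finset δ) {m : ℝ}
    (hN : ∀ a, ((N a).card : ℝ) ≤ m) {u v : α} (huv : u ≠ v) {x y : α} (hxy : x ≠ y) :
    (ind x u * (com N v y - com N x y) + ind y u * (com N v x - com N x y)) +
     (ind x v * (com N u y - com N x y) + ind y v * (com N u x - com N x y)) ≤
    (com (fun a => N (Equiv.swap u v a)) x y - com N x y) +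
      2 * m * (ind x u * ind y v + ind x v * ind y u) := by
  have hc : com (fun a => N (Equiv.swap u v a)) x y =
      com N (Equiv.swap u v x) (Equiv.swap u v y) := rfl
  rw [hc]
  have hu := com_self N u
  have hv := com_self N v
  have hu' := hN u
  have hv' := hN v
  have hcc := com_comm N u v
  have hc0 := com_nonneg N u v
  unfold ind
  by_cases h1 : x = u
  · subst h1
    by_cases h2 : y = v
    · subst h2
      simp only [Equiv.swap_apply_left, Equiv.swap_apply_right, if_true]
      rw [if_neg hxy, if_neg (Ne.symm hxy)]
      linarith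
    · rw [Equiv.swap_apply_left, Equiv.swap_apply_of_ne_of_ne (Ne.symm hxy) h2]
      simp only [if_true]
      rw [if_neg (Ne.symm hxy), if_neg huv, if_neg h2]
      linarith
  · by_cases h2 : x = v
    · subst h2
      by_cases h3 : y = u
      · subst h3
        simp only [Equiv.swap_apply_left, Equiv.swap_apply_right, if_true]
        rw [if_neg hxy, if_neg (Ne.symm hxy)]
        linarith
      · rw [Equiv.swap_apply_right, Equiv.swap_apply_of_ne_of_ne h3 (Ne.symm hxy)]
        simp only [if_true]
        rw [if_neg h1, if_neg h3, if_neg (Ne.symm hxy)]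
        linarith
    · rw [Equiv.swap_apply_of_ne_of_ne h1 h2, if_neg h1, if_neg h2]
      by_cases h3 : y = u
      · subst h3
        rw [Equiv.swap_apply_left, com_comm N x v]
        simp only [if_true]
        rw [if_neg huv]
        linarith
      · by_cases h4 : y = v
        · subst h4
          rw [Equiv.swap_apply_right, com_comm N x u]
          simp only [if_true]
          rw [if_neg h3]
          linarith
        · rw [Equiv.swap_apply_of_ne_of_ne h3 h4, if_neg h3, if_neg h4]
          linarith

theorem packing {s m : ℕ} (hα : Fintype.card α = s) (hβ : Fintype.card β = s)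
    (hγ : Fintype.card γ = s) (hδ : Fintype.card δ = s) (h : α → β → Prop) (r : γ → δ → Prop)
    (h1 : ∀ a, Set.ncard {b | h a b} ≤ 2) (h2 : ∀ b, Set.ncard {a | h a b} ≤ 2)
    (r1 : ∀ c, Set.ncard {d | r c d} ≤ m) (r2 : ∀ d, Set.ncard {c | r c d} ≤ m)
    (hs : 10 * m ≤ 3 * s) :
    ∃ f : α ≃ γ, ∃ g : β ≃ δ, ∀ a b, h a b → ¬ r (f a) (g b) := by
  classical
  have h1' : ∀ a, (univ.filter fun b => h a b).card ≤ 2 := by
    intro a
    have := h1 a
    rw [Set.ncard_eq_toFinset_card'] at this
    simpa using this
  have h2' : ∀ b, (univ.filter fun a => h a b).card ≤ 2 := by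
    intro b
    have := h2 b
    rw [Set.ncard_eq_toFinset_card'] at this
    simpa using this
  have r1' : ∀ c, (univ.filter fun d => r c d).card ≤ m := by
    intro c
    have := r1 c
    rw [Set.ncard_eq_toFinset_card'] at this
    simpa using this
  have r2' : ∀ d, (univ.filter fun c => r c d).card ≤ m := by
    intro d
    have := r2 d
    rw [Set.ncard_eq_toFinset_card'] at this
    simpa using this
  set B2 : Finset β := univ.filter fun b => (univ.filter fun a => h a b).card = 2 with hB2
  have hex : ∀ b, ∃ p : α × α, b ∈ B2 → p.1 ≠ p.2 ∧ ∀ a, h a b ↔ a = p.1 ∨ a = p.2 := by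
    intro b
    by_cases hb : b ∈ B2
    · have hb' := (Finset.mem_filter.mp hb).2
      obtain ⟨x, y, hxy, he⟩ := Finset.card_eq_two.mp hb'
      refine ⟨(x, y), fun _ => ⟨hxy, fun a => ?_⟩⟩
      have : a ∈ (univ.filter fun a => h a b) ↔ a ∈ ({x, y} : Finset α) := by rw [he]
      simpa using this
    · have : Nonempty α := by
        have hβ0 : 0 < Fintype.card β := Fintype.card_pos_iff.mpr ⟨b⟩
        exact Fintype.card_pos_iff.mp (by omega)
      obtain ⟨a⟩ := this
      exact ⟨(a, a), fun h' => absurd h' hb⟩
  choose p hp using hex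
  set x : β → α := fun b => (p b).1 with hx
  set y : β → α := fun b => (p b).2 with hy
  have hxy : ∀ b ∈ B2, x b ≠ y b := fun b hb => (hp b hb).1
  have hxy2 : ∀ b ∈ B2, ∀ a, h a b ↔ a = x b ∨ a = y b := fun b hb => (hp b hb).2
  -- the optimal embedding
  let NN : (α ≃ γ) → α → Finset δ := fun f a => univ.filter fun d => r (f a) d
  let W : (α ≃ γ) → ℝ := fun f => ∑ b ∈ B2, com (NN f) (x b) (y b)
  have : Nonempty (α ≃ γ) := ⟨Fintype.equivOfCardEq (by rw [hα, hγ])⟩
  obtain ⟨f, hf⟩ := Finite.exists_max W
  let t : β → Finset δ := fun b => univ.filter fun d => ∀ a, h a b → ¬ r (f a) d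
  by_cases hall : ∀ S : Finset β, S.card ≤ (S.biUnion t).card
  · obtain ⟨g, hg, hgt⟩ := (Finset.all_card_le_biUnion_card_iff_exists_injective t).mp hall
    have hbij : Function.Bijective g :=
      (Fintype.bijective_iff_injective_and_card g).mpr ⟨hg, by rw [hβ, hδ]⟩
    refine ⟨f, Equiv.ofBijective g hbij, fun a b hab => ?_⟩
    have := (Finset.mem_filter.mp (hgt b)).2
    exact this a hab
  exfalso
  push Not at hall
  obtain ⟨X, hX⟩ := hall
  set Z : Finset δ := univ \ X.biUnion t with hZdef
  have hZcard : Z.card + (X.biUnion t).card = s := by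
    rw [hZdef, Finset.card_sdiff_add_card_eq_card (Finset.subset_univ _), Finset.card_univ, hδ]
  have hXs : X.card ≤ s := by
    rw [← hβ]
    exact Finset.card_le_univ X
  have hXZ : s + 1 ≤ X.card + Z.card := by omega
  have hXne : X.Nonempty := by
    rw [← Finset.card_pos]
    omega
  have hZne : Z.Nonempty := by
    rw [← Finset.card_pos]
    omega
  have hcov : ∀ b ∈ X, ∀ d ∈ Z, ∃ a, h a b ∧ r (f a) d := by
    intro b hb d hd
    by_contra hcon
    push Not at hcon
    rw [hZdef, Finset.mem_sdiff] at hd
    apply hd.2
    rw [Finset.mem_biUnion]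
    refine ⟨b, hb, ?_⟩
    simp only [t, Finset.mem_filter, Finset.mem_univ, true_and]
    exact hcon
  have hN1 : ∀ a, (NN f a).card ≤ m := fun a => r1' (f a)
  have hN2 : ∀ d, (univ.filter fun a => r (f a) d).card ≤ m := by
    intro d
    refine le_trans (le_of_eq ?_) (r2' d)
    refine Finset.card_bij (fun a _ => f a) ?_ ?_ ?_
    · intro a ha
      simpa using ha
    · intro a _ a' _ he
      exact f.injective he
    · intro c hc
      refine ⟨f.symm c, ?_, by simp⟩
      simpa using hc
  -- X has at most 2 m elements
  have hX2 : X.card ≤ 2 * m := by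
    obtain ⟨d, hd⟩ := hZne
    have hsub : X ⊆ (univ.filter fun a => r (f a) d).biUnion fun a => univ.filter fun b => h a b := by
      intro b hb
      obtain ⟨a, ha, har⟩ := hcov b hb d hd
      rw [Finset.mem_biUnion]
      exact ⟨a, by simpa using har, by simpa using ha⟩
    refine (Finset.card_le_card hsub).trans ?_
    refine (Finset.card_biUnion_le_card_mul _ _ 2 fun a _ => h1' a).trans ?_
    have := hN2 d
    omega
  by_cases hZm : Z.card ≤ m
  · omega
  push Not at hZm
  -- all elements of X have two neighbours
  have hXB : ∀ b ∈ X, b ∈ B2 := by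
    intro b hb
    rw [hB2, Finset.mem_filter]
    refine ⟨Finset.mem_univ _, ?_⟩
    by_contra hne
    have hle : (univ.filter fun a => h a b).card ≤ 1 := by
      have := h2' b
      omega
    rw [Finset.card_le_one] at hle
    obtain ⟨d0, hd0⟩ := hZne
    obtain ⟨a0, ha0, _⟩ := hcov b hb d0 hd0
    have hsub : Z ⊆ NN f a0 := by
      intro d hd
      obtain ⟨a, ha, har⟩ := hcov b hb d hd
      have : a = a0 := hle a (by simpa using ha) a0 (by simpa using ha0)
      subst this
      simpa [NN] using har
    have := (Finset.card_le_card hsub).trans (hN1 a0)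
    omega
  set N : α → Finset δ := NN f with hN
  set U : Finset α := univ.filter fun a => (X.filter fun b => h a b).card = 2 with hU
  have hsum : ∀ u, ∑ b ∈ X, (ind (x b) u + ind (y b) u) =
      ((X.filter fun b => h u b).card : ℝ) := by
    intro u
    rw [Finset.card_filter, Nat.cast_sum]
    refine Finset.sum_congr rfl fun b hb => ?_
    have e1 := hxy b (hXB b hb)
    have e2 := hxy2 b (hXB b hb) u
    unfold ind
    by_cases g1 : x b = u
    · have g2 : y b ≠ u := fun g => e1 (g1.trans g.symm)
      have g3 : h u b := e2.mpr (Or.inl g1.symm)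
      simp [g1, g2, g3]
    · by_cases g2 : y b = u
      · have g3 : h u b := e2.mpr (Or.inr g2.symm)
        simp [g1, g2, g3]
      · have g3 : ¬ h u b := by
          intro g
          rcases e2.mp g with g | g
          · exact g1 g.symm
          · exact g2 g.symm
        simp [g1, g2, g3]
  have hdata : Data N (m : ℝ) X Z x y U := by
    refine ⟨?_, ?_, ?_, ?_, ?_, ?_⟩
    · intro a
      exact_mod_cast hN1 a
    · intro d
      have e1 : ∑ a, chi N a d = ((univ.filter fun a => r (f a) d).card : ℝ) := by
        rw [Finset.card_filter, Nat.cast_sum]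
        refine Finset.sum_congr rfl fun a _ => ?_
        unfold chi
        simp [hN, NN]
      rw [e1]
      exact_mod_cast hN2 d
    · intro b hb d hd
      obtain ⟨a, ha, har⟩ := hcov b hb d hd
      rcases (hxy2 b (hXB b hb) a).mp ha with g | g
      · left
        rw [← g]
        simpa [hN, NN] using har
      · right
        rw [← g]
        simpa [hN, NN] using har
    · intro u hu
      rw [hsum u]
      rw [hU, Finset.mem_filter] at hu
      rw [hu.2]
      norm_num
    · intro u hu
      rw [hsum u]
      have e1 : (X.filter fun b => h u b).card ≤ 2 := by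
        refine le_trans (Finset.card_le_card ?_) (h1' u)
        exact Finset.filter_subset_filter _ (Finset.subset_univ X)
      have e2 : (X.filter fun b => h u b).card ≠ 2 := by
        intro e
        exact hu (by rw [hU, Finset.mem_filter]; exact ⟨Finset.mem_univ _, e⟩)
      have e3 : (X.filter fun b => h u b).card ≤ 1 := by omega
      exact_mod_cast e3
    · intro u hu v hv
      by_cases huv : u = v
      · subst huv
        refine Finset.sum_le_sum fun b _ => ?_
        have hm0 : (0 : ℝ) ≤ m := Nat.cast_nonneg _
        unfold ind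
        by_cases g1 : x b = u
        · by_cases g2 : y b = u
          · simp only [g1, g2, if_true]
            linarith
          · simp only [g1, if_true, if_neg g2]
            linarith
        · by_cases g2 : y b = u
          · simp only [g2, if_true, if_neg g1]
            have := com_comm N u (x b)
            linarith
          · simp only [if_neg g1, if_neg g2]
            linarith
      · -- all neighbours of u and v are in X
        have hin : ∀ w ∈ U, ∀ b, h w b → b ∈ X := by
          intro w hw b hb
          rw [hU, Finset.mem_filter] at hw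
          have e1 : (X.filter fun b => h w b) ⊆ univ.filter fun b => h w b :=
            Finset.filter_subset_filter _ (Finset.subset_univ X)
          have e2 : (X.filter fun b => h w b) = univ.filter fun b => h w b := by
            apply Finset.eq_of_subset_of_card_le e1
            rw [hw.2]
            exact h1' w
          have e3 : b ∈ (X.filter fun b => h w b) := by
            rw [e2]
            simpa using hb
          exact (Finset.mem_filter.mp e3).1
        have hW := hf ((Equiv.swap u v).trans f)
        have hW1 : W ((Equiv.swap u v).trans f) = ∑ b ∈ B2,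
            com (fun a => N (Equiv.swap u v a)) (x b) (y b) := rfl
        have hW2 : W f = ∑ b ∈ B2, com N (x b) (y b) := rfl
        rw [hW1, hW2, ← sub_nonpos, ← Finset.sum_sub_distrib] at hW
        have hXsub : X ⊆ B2 := fun b hb => hXB b hb
        rw [← Finset.sum_sdiff hXsub] at hW
        have h0 : ∑ b ∈ B2 \ X, (com (fun a => N (Equiv.swap u v a)) (x b) (y b) -
            com N (x b) (y b)) = 0 := by
          apply Finset.sum_eq_zero
          intro b hb
          rw [Finset.mem_sdiff] at hb
          have g1 : ∀ w ∈ U, x b ≠ w ∧ y b ≠ w := by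
            intro w hw
            constructor
            · intro e
              exact hb.2 (hin w hw b ((hxy2 b hb.1 w).mpr (Or.inl e.symm)))
            · intro e
              exact hb.2 (hin w hw b ((hxy2 b hb.1 w).mpr (Or.inr e.symm)))
          have hc : com (fun a => N (Equiv.swap u v a)) (x b) (y b) =
              com N (Equiv.swap u v (x b)) (Equiv.swap u v (y b)) := rfl
          rw [hc, Equiv.swap_apply_of_ne_of_ne (g1 u hu).1 (g1 v hv).1,
            Equiv.swap_apply_of_ne_of_ne (g1 u hu).2 (g1 v hv).2, sub_self]
        rw [h0, zero_add] at hW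
        have h3 := Finset.sum_le_sum fun b (hb : b ∈ X) =>
          pair_ineq N (fun a => (by exact_mod_cast hN1 a : ((N a).card : ℝ) ≤ m)) huv
            (hxy b (hXB b hb))
        rw [Finset.sum_add_distrib (f := fun b => com (fun a => N (Equiv.swap u v a)) (x b) (y b) -
          com N (x b) (y b))] at h3
        linarith
  have hZ2 : Z.card ≤ 2 * m := by
    obtain ⟨b, hb⟩ := hXne
    have g1 := cov_le hdata hb
    have g2 := inZ_le hdata (x b)
    have g3 := inZ_le hdata (y b)
    have g4 : (Z.card : ℝ) ≤ 2 * m := by linarith
    exact_mod_cast g4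
  exact numeric hs hXZ hX2 hXne.card_pos hZ2 (core hdata (Nat.cast_nonneg _) hXne)

end Pool.Agent.Helper99.WG
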