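import Pool.Agent.Helper99.WG.Core

/-!
# MP_abf47a_co: the sum of the exchange inequalities
-/

namespace Pool.Agent.Helper99.WG

open Finset

set_option linter.unusedSectionVars false

variable {α β δ : Type*} [Fintype α] [DecidableEq α] [DecidableEq β] [Fintype δ]
  [DecidableEq δ]
variable {N : α → Finset δ} {m : ℝ} {X : Finset β} {Z : Finset δ} {x y : β → α} {U : Finset α}

/-- The number of elements of `U` whose set contains `d`. -/
def dd (N : α → Finset δ) (U : Finset α) (d : δ) : ℝ := ∑ u ∈ U, chi N u d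

theorem dd_nonneg (d : δ) : 0 ≤ dd N U d := Finset.sum_nonneg fun u _ => chi_nonneg N u d

theorem sum_com (a : α) : ∑ v ∈ U, com N v a = ∑ d, dd N U d * chi N a d := by
  unfold com dd
  rw [Finset.sum_comm]
  exact Finset.sum_congr rfl fun d _ => (Finset.sum_mul _ _ _).symm

/-- The sum of the exchange inequalities over `U × U`. -/
theorem sum_swap (hd : Data N m X Z x y U) (hm : 0 ≤ m) :
    ∑ b ∈ X, (inU U (x b) * (∑ v ∈ U, com N v (y b) - U.card * com N (x b) (y b)) +
      inU U (y b) * (∑ v ∈ U, com N v (x b) - U.card * com N (x b) (y b))) ≤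
      2 * m * U.card := by
  have h1 := Finset.sum_le_sum fun u hu => Finset.sum_le_sum fun v hv => hd.swap u hu v hv
  have e1 : ∀ b, ∑ u ∈ U, ∑ v ∈ U, (ind (x b) u * (com N v (y b) - com N (x b) (y b)) +
      ind (y b) u * (com N v (x b) - com N (x b) (y b))) =
      inU U (x b) * (∑ v ∈ U, com N v (y b) - U.card * com N (x b) (y b)) +
      inU U (y b) * (∑ v ∈ U, com N v (x b) - U.card * com N (x b) (y b)) := by
    intro b
    have h2 : ∀ c : α, ∑ v ∈ U, (com N v c - com N (x b) (y b)) =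
        ∑ v ∈ U, com N v c - U.card * com N (x b) (y b) := by
      intro c
      rw [Finset.sum_sub_distrib, Finset.sum_const, nsmul_eq_mul]
    have h3 : ∀ u, ∑ v ∈ U, (ind (x b) u * (com N v (y b) - com N (x b) (y b)) +
      ind (y b) u * (com N v (x b) - com N (x b) (y b))) =
        ind (x b) u * (∑ v ∈ U, com N v (y b) - U.card * com N (x b) (y b)) +
        ind (y b) u * (∑ v ∈ U, com N v (x b) - U.card * com N (x b) (y b)) := by
      intro u
      rw [Finset.sum_add_distrib, ← Finset.mul_sum, ← Finset.mul_sum, h2, h2]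
    rw [Finset.sum_congr rfl fun u _ => h3 u, Finset.sum_add_distrib, ← Finset.sum_mul,
      ← Finset.sum_mul, sum_ind', sum_ind']
  have e2 : ∀ b, ∑ u ∈ U, ∑ v ∈ U, (ind (x b) v * (com N u (y b) - com N (x b) (y b)) +
      ind (y b) v * (com N u (x b) - com N (x b) (y b))) =
      inU U (x b) * (∑ v ∈ U, com N v (y b) - U.card * com N (x b) (y b)) +
      inU U (y b) * (∑ v ∈ U, com N v (x b) - U.card * com N (x b) (y b)) := by
    intro b
    rw [Finset.sum_comm]
    exact e1 b
  have e3 : ∀ b, ∑ u ∈ U, ∑ v ∈ U, (2 * m * (ind (x b) u * ind (y b) v +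
      ind (x b) v * ind (y b) u)) = 4 * m * (inU U (x b) * inU U (y b)) := by
    intro b
    have h2 : ∑ u ∈ U, ∑ v ∈ U, (ind (x b) u * ind (y b) v) = inU U (x b) * inU U (y b) := by
      rw [← sum_ind', ← sum_ind' U (y b), Finset.sum_mul_sum]
    have h3 : ∑ u ∈ U, ∑ v ∈ U, (ind (x b) v * ind (y b) u) = inU U (x b) * inU U (y b) := by
      rw [Finset.sum_comm, h2]
    calc _ = ∑ u ∈ U, 2 * m * (∑ v ∈ U, ind (x b) u * ind (y b) v +
          ∑ v ∈ U, ind (x b) v * ind (y b) u) := by
          refine Finset.sum_congr rfl fun u _ => ?_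
          rw [← Finset.mul_sum, Finset.sum_add_distrib]
      _ = 2 * m * (∑ u ∈ U, ∑ v ∈ U, ind (x b) u * ind (y b) v +
          ∑ u ∈ U, ∑ v ∈ U, ind (x b) v * ind (y b) u) := by
          rw [← Finset.mul_sum, Finset.sum_add_distrib]
      _ = _ := by rw [h2, h3]; ring
  have l1 : ∑ u ∈ U, ∑ v ∈ U, ∑ b ∈ X,
      ((ind (x b) u * (com N v (y b) - com N (x b) (y b)) +
        ind (y b) u * (com N v (x b) - com N (x b) (y b))) +
       (ind (x b) v * (com N u (y b) - com N (x b) (y b)) +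
        ind (y b) v * (com N u (x b) - com N (x b) (y b)))) =
      ∑ b ∈ X, 2 * (inU U (x b) * (∑ v ∈ U, com N v (y b) - U.card * com N (x b) (y b)) +
      inU U (y b) * (∑ v ∈ U, com N v (x b) - U.card * com N (x b) (y b))) := by
    have h2 : ∀ u ∈ U, ∑ v ∈ U, ∑ b ∈ X,
      ((ind (x b) u * (com N v (y b) - com N (x b) (y b)) +
        ind (y b) u * (com N v (x b) - com N (x b) (y b))) +
       (ind (x b) v * (com N u (y b) - com N (x b) (y b)) +
        ind (y b) v * (com N u (x b) - com N (x b) (y b)))) = ∑ b ∈ X, ∑ v ∈ U,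
      ((ind (x b) u * (com N v (y b) - com N (x b) (y b)) +
        ind (y b) u * (com N v (x b) - com N (x b) (y b))) +
       (ind (x b) v * (com N u (y b) - com N (x b) (y b)) +
        ind (y b) v * (com N u (x b) - com N (x b) (y b)))) := fun u _ => Finset.sum_comm
    rw [Finset.sum_congr rfl h2, Finset.sum_comm]
    refine Finset.sum_congr rfl fun b _ => ?_
    have h3 := e1 b
    have h4 := e2 b
    simp only [Finset.sum_add_distrib] at h3 h4 ⊢
    linarith
  have l2 : ∑ u ∈ U, ∑ v ∈ U, ∑ b ∈ X,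
      2 * m * (ind (x b) u * ind (y b) v + ind (x b) v * ind (y b) u) =
      4 * m * ∑ b ∈ X, inU U (x b) * inU U (y b) := by
    have h2 : ∀ u ∈ U, ∑ v ∈ U, ∑ b ∈ X,
      2 * m * (ind (x b) u * ind (y b) v + ind (x b) v * ind (y b) u) = ∑ b ∈ X, ∑ v ∈ U,
      2 * m * (ind (x b) u * ind (y b) v + ind (x b) v * ind (y b) u) :=
      fun u _ => Finset.sum_comm
    rw [Finset.sum_congr rfl h2, Finset.sum_comm, Finset.mul_sum]
    exact Finset.sum_congr rfl fun b _ => e3 b
  rw [l1, l2, ← Finset.mul_sum] at h1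
  have h5 := sum_both hd
  have h6 : 0 ≤ ie X x y U := ie_nonneg
  have h7 : ∑ b ∈ X, inU U (x b) * inU U (y b) ≤ U.card := by linarith
  have h8 := mul_le_mul_of_nonneg_left h7 (show 0 ≤ 4 * m by linarith)
  linarith

/-- `2 |N x ∩ N y| ≤ 2 m - |Z| + |N x ∩ N y ∩ Z|`. -/
theorem com_le (hd : Data N m X Z x y U) {b : β} (hb : b ∈ X) :
    2 * com N (x b) (y b) ≤ 2 * m - Z.card + ∑ d ∈ Z, chi N (x b) d * chi N (y b) d := by
  have h1 : ∀ f : δ → ℝ, ∑ d, f d = ∑ d ∈ Z, f d + ∑ d ∈ univ \ Z, f d := by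
    intro f
    rw [add_comm]
    exact (Finset.sum_sdiff (Finset.subset_univ Z)).symm
  have h2 : ∑ d, (chi N (x b) d + chi N (y b) d - 2 * (chi N (x b) d * chi N (y b) d)) ≤
      2 * m - 2 * com N (x b) (y b) := by
    rw [Finset.sum_sub_distrib, Finset.sum_add_distrib, sum_chi, sum_chi, ← Finset.mul_sum]
    have h3 := hd.one (x b)
    have h4 := hd.one (y b)
    unfold com
    linarith
  rw [h1] at h2
  have h3 : 0 ≤ ∑ d ∈ univ \ Z, (chi N (x b) d + chi N (y b) d -
      2 * (chi N (x b) d * chi N (y b) d)) := by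
    refine Finset.sum_nonneg fun d _ => ?_
    rcases chi_zero_or N (x b) d with h | h <;> rcases chi_zero_or N (y b) d with h' | h' <;>
      rw [h, h'] <;> norm_num
  have h4 : ∑ d ∈ Z, (chi N (x b) d + chi N (y b) d - 2 * (chi N (x b) d * chi N (y b) d)) =
      Z.card - ∑ d ∈ Z, chi N (x b) d * chi N (y b) d := by
    have : (Z.card : ℝ) = ∑ d ∈ Z, (1 : ℝ) := by simp
    rw [this, ← Finset.sum_sub_distrib]
    refine Finset.sum_congr rfl fun d hdZ => ?_
    have h5 := cov_sum hd hb hdZ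
    linarith
  linarith

/-- The other ends. -/
def cc (N : α → Finset δ) (X : Finset β) (x y : β → α) (U : Finset α) (d : δ) : ℝ :=
  ∑ b ∈ X, (inU U (x b) * chi N (y b) d + inU U (y b) * chi N (x b) d)

theorem cc_sub (hd : Data N m X Z x y U) {d : δ} (_ : d ∈ Z) :
    |cc N X x y U d - 2 * dd N U d| ≤ ie X x y U := by
  have h1 := sum_U hd (fun a => chi N a d)
  have h2 : cc N X x y U d - 2 * dd N U d =
      ∑ b ∈ X, (inU U (x b) - inU U (y b)) * (chi N (y b) d - chi N (x b) d) := by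
    unfold cc dd
    rw [← h1, ← Finset.sum_sub_distrib]
    exact Finset.sum_congr rfl fun b _ => by ring
  rw [h2]
  refine (Finset.abs_sum_le_sum_abs _ _).trans ?_
  refine Finset.sum_le_sum fun b _ => ?_
  rcases chi_zero_or N (x b) d with g | g <;> rcases chi_zero_or N (y b) d with g' | g' <;>
  rcases inU_zero_or U (x b) with h | h <;> rcases inU_zero_or U (y b) with h' | h' <;>
      rw [h, h', g, g'] <;> norm_num

/-- E1 -/
theorem main_ineq (hd : Data N m X Z x y U) (hm : 0 ≤ m) :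
    (U.card : ℝ) * (6 * Z.card - 8 * m) ≤ ie X x y U * Z.card + 8 * m := by
  set n : ℝ := (U.card : ℝ) with hn
  set e : ℝ := ie X x y U with he
  have hn0 : 0 ≤ n := Nat.cast_nonneg _
  have he0 : 0 ≤ e := ie_nonneg
  have he2 : e ≤ 2 * n := ie_le hd
  have hpq := sum_pq hd
  have hs := sum_swap hd hm
  -- lower bound of the left hand side
  have h1 : ∀ b ∈ X, ∑ d ∈ Z, dd N U d * (inU U (x b) * chi N (y b) d +
      inU U (y b) * chi N (x b) d) - n / 2 * ((inU U (x b) + inU U (y b)) *
        (2 * m - Z.card + ∑ d ∈ Z, chi N (x b) d * chi N (y b) d)) ≤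
      inU U (x b) * (∑ v ∈ U, com N v (y b) - U.card * com N (x b) (y b)) +
      inU U (y b) * (∑ v ∈ U, com N v (x b) - U.card * com N (x b) (y b)) := by
    intro b hb
    have g1 := com_le hd hb
    have g2 : ∀ a, ∑ d ∈ Z, dd N U d * chi N a d ≤ ∑ v ∈ U, com N v a := by
      intro a
      rw [sum_com]
      exact Finset.sum_le_sum_of_subset_of_nonneg (Finset.subset_univ Z)
        fun d _ _ => mul_nonneg (dd_nonneg d) (chi_nonneg N a d)
    have g3 := g2 (x b)
    have g4 := g2 (y b)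
    have g5 : ∑ d ∈ Z, dd N U d * (inU U (x b) * chi N (y b) d +
        inU U (y b) * chi N (x b) d) = inU U (x b) * ∑ d ∈ Z, dd N U d * chi N (y b) d +
        inU U (y b) * ∑ d ∈ Z, dd N U d * chi N (x b) d := by
      rw [Finset.mul_sum, Finset.mul_sum, ← Finset.sum_add_distrib]
      exact Finset.sum_congr rfl fun d _ => by ring
    rw [g5, ← hn]
    have g6 : 0 ≤ n * (2 * m - Z.card + ∑ d ∈ Z, chi N (x b) d * chi N (y b) d -
        2 * com N (x b) (y b)) := mul_nonneg hn0 (by linarith)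
    rcases inU_zero_or U (x b) with h | h <;> rcases inU_zero_or U (y b) with h' | h' <;>
      rw [h, h'] <;> nlinarith
  have h2 := (Finset.sum_le_sum h1).trans hs
  rw [Finset.sum_sub_distrib, ← Finset.mul_sum] at h2
  have h3 : ∑ b ∈ X, ∑ d ∈ Z, dd N U d * (inU U (x b) * chi N (y b) d +
      inU U (y b) * chi N (x b) d) = ∑ d ∈ Z, dd N U d * cc N X x y U d := by
    rw [Finset.sum_comm]
    refine Finset.sum_congr rfl fun d _ => ?_
    rw [← Finset.mul_sum]
    rfl
  have h4 : ∑ b ∈ X, ((inU U (x b) + inU U (y b)) *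
        (2 * m - Z.card + ∑ d ∈ Z, chi N (x b) d * chi N (y b) d)) =
      2 * n * (2 * m - Z.card) + ∑ d ∈ Z, (2 * dd N U d + cc N X x y U d - 2 * n) := by
    have g1 : ∀ b ∈ X, ((inU U (x b) + inU U (y b)) *
        (2 * m - Z.card + ∑ d ∈ Z, chi N (x b) d * chi N (y b) d)) =
        (inU U (x b) + inU U (y b)) * (2 * m - Z.card) + ∑ d ∈ Z,
          ((inU U (x b) * chi N (x b) d + inU U (y b) * chi N (y b) d) +
          (inU U (x b) * chi N (y b) d + inU U (y b) * chi N (x b) d) -
            (inU U (x b) + inU U (y b))) := by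
      intro b hb
      rw [mul_add, Finset.mul_sum]
      congr 1
      refine Finset.sum_congr rfl fun d hdZ => ?_
      have g2 := cov_sum hd hb hdZ
      have g3 : chi N (x b) d * chi N (y b) d = chi N (x b) d + chi N (y b) d - 1 := by linarith
      rw [g3]
      ring
    rw [Finset.sum_congr rfl g1, Finset.sum_add_distrib, ← Finset.sum_mul, hpq, Finset.sum_comm]
    congr 1
    refine Finset.sum_congr rfl fun d _ => ?_
    rw [Finset.sum_sub_distrib, Finset.sum_add_distrib, sum_U hd (fun a => chi N a d), hpq]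
    rfl
  rw [h3, h4] at h2
  have h5 : ∀ d ∈ Z, n ^ 2 / 2 - n * e / 4 ≤
      dd N U d * cc N X x y U d - n / 2 * (2 * dd N U d + cc N X x y U d - 2 * n) := by
    intro d hdZ
    have g1 := abs_le.mp (cc_sub hd hdZ)
    set D := dd N U d
    set C := cc N X x y U d
    have g2 : (C - 2 * D) ^ 2 ≤ e ^ 2 := by
      apply sq_le_sq'
      · linarith [g1.1]
      · exact g1.2
    have g3 : e ^ 2 ≤ 2 * n * e := by nlinarith
    nlinarith [sq_nonneg (4 * (D - n / 2) + (C - 2 * D))]
  have h6 := Finset.sum_le_sum h5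
  rw [Finset.sum_const, nsmul_eq_mul, Finset.sum_sub_distrib, ← Finset.mul_sum] at h6
  set S1 := ∑ d ∈ Z, dd N U d * cc N X x y U d
  set S2 := ∑ d ∈ Z, (2 * dd N U d + cc N X x y U d - 2 * n)
  have hZ0 : (0 : ℝ) ≤ Z.card := Nat.cast_nonneg _
  rcases eq_or_lt_of_le hn0 with h0 | h0
  · rw [← h0] at he2 ⊢
    have : e = 0 := by linarith
    rw [this]
    linarith
  · have h7 : n * ((Z.card : ℝ) * (2 * n - e)) ≤ n * (8 * m + 8 * n * m - 4 * n * Z.card) := by
      nlinarith
    have h8 := le_of_mul_le_mul_left h7 h0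
    linarith

/-- The result of the counting argument. -/
theorem core (hd : Data N m X Z x y U) (hm : 0 ≤ m) (hX : X.Nonempty) :
    (X.card : ℝ) * (5 * Z.card - 4 * m) ≤ 4 * m * (Z.card + 1) := by
  have h1 := main_ineq hd hm
  have h2 := count hd
  have h3 := cover_cost hd
  have h4 : 0 ≤ ee X x y U := ee_nonneg
  have h5 : (Z.card : ℝ) ≤ 2 * m := by
    obtain ⟨b, hb⟩ := hX
    have g1 := cov_le hd hb
    have g2 := inZ_le hd (x b)
    have g3 := inZ_le hd (y b)
    linarith
  have h6 : (U.card : ℝ) = X.card - ee X x y U - ie X x y U / 2 := by linarith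
  rw [h6] at h1
  have h7 : 0 ≤ ee X x y U * (8 * m - 2 * Z.card) := mul_nonneg h4 (by linarith)
  nlinarith

end Pool.Agent.Helper99.WG
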